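import Pool.Agent.H914R2.Weil

/-!
# Chow groups, cohomology theories and Bloch-Beilinson filtrations: definitions
-/

open CategoryTheory AlgebraicGeometry

universe u v w

namespace Pool.Agent.W492.BB

open Pool.Agent.H914 Pool.Agent.H914.VarClass Pool.Agent.H914.VarClass.Obj

variable {k : Type u} [Field k]

/-- The product `f × g : X × Z ⟶ Y × W` of two morphisms of varieties. -/
noncomputable def prodMap {𝒱 : VarClass k} {X Y Z W : 𝒱.Obj} (f : X ⟶ Y) (g : Z ⟶ W) :
    X.prod Z ⟶ Y.prod W :=
  Obj.lift (fst X Z ≫ f) (snd X Z ≫ g)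

/-- The data of a theory with pull-backs and push-forwards on the varieties of the class `𝒱`:
rings `A(X)` which are algebras over the field `F`, with subspaces `A^i(X)`, contravariant ring
homomorphisms `f^*` and covariant linear maps `f_*`. -/
structure TheoryData (𝒱 : VarClass k) (F : Type w) [Field F] where
  /-- the ring `A(X)` -/
  A : 𝒱.Obj → Type v
  [ring : ∀ X, Ring (A X)]
  [algebra : ∀ X, Algebra F (A X)]
  /-- the grading: `gr X i` is `A^i(X)` -/
  gr : ∀ X, ℤ → Submodule F (A X)
  /-- pull-back -/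
  pull : ∀ {X Y : 𝒱.Obj}, (X ⟶ Y) → (A Y →ₐ[F] A X)
  /-- push-forward -/
  push : ∀ {X Y : 𝒱.Obj}, (X ⟶ Y) → (A X →ₗ[F] A Y)

attribute [instance] TheoryData.ring TheoryData.algebra

namespace TheoryData

variable {𝒱 : VarClass k} {F : Type w} [Field F] (T : TheoryData.{u, v, w} 𝒱 F) {X Y : 𝒱.Obj}

/-- The class `a` lies in `A^i(X)`. -/
abbrev Deg (i : ℤ) (a : T.A X) : Prop := a ∈ T.gr X i

/-- The pull-back `f^* b`. -/
abbrev up (f : X ⟶ Y) (b : T.A Y) : T.A X := T.pull f b

/-- The push-forward `f_* a`. -/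
abbrev down (f : X ⟶ Y) (a : T.A X) : T.A Y := T.push f a

/-- The product `a b`. -/
abbrev mul (a b : T.A X) : T.A X := a * b

/-- The action `Γ_* : A(X) → A(Y)`, `a ↦ q_* (Γ · p^* a)` of a class `Γ` on `X × Y`. -/
noncomputable def act (Γ : T.A (X.prod Y)) (a : T.A X) : T.A Y :=
  T.down (snd X Y) (T.mul Γ (T.up (fst X Y) a))

/-- `A(X)` is a graded ring, vanishing in negative degrees. -/
structure IsGradedRing : Prop where
  isInternal : ∀ X, DirectSum.IsInternal (T.gr X)
  gr_neg : ∀ X i, i < 0 → T.gr X i = ⊥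
  one_mem : ∀ X, T.Deg (X := X) 0 1
  mul_mem : ∀ {X : 𝒱.Obj} {i j : ℤ} {a b : T.A X}, T.Deg i a → T.Deg j b →
    T.Deg (i + j) (T.mul a b)

/-- Pull-backs preserve degrees, push-forwards shift them by `δ (dim Y - dim X)`. -/
structure HasDegrees (δ : ℤ) : Prop where
  pull_mem : ∀ {X Y : 𝒱.Obj} (f : X ⟶ Y) {i : ℤ} {b : T.A Y}, T.Deg i b → T.Deg i (T.up f b)
  push_mem : ∀ {X Y : 𝒱.Obj} (f : X ⟶ Y) {i : ℤ} {a : T.A X}, T.Deg i a →
    T.Deg (i + δ * (Y.dim - X.dim)) (T.down f a)

/-- Pull-backs and push-forwards are functorial. -/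
structure IsFunctor : Prop where
  pull_id : ∀ {X : 𝒱.Obj} (a : T.A X), T.up (𝟙 X) a = a
  pull_comp : ∀ {X Y Z : 𝒱.Obj} (f : X ⟶ Y) (g : Y ⟶ Z) (a : T.A Z),
    T.up (f ≫ g) a = T.up f (T.up g a)
  push_id : ∀ {X : 𝒱.Obj} (a : T.A X), T.down (𝟙 X) a = a
  push_comp : ∀ {X Y Z : 𝒱.Obj} (f : X ⟶ Y) (g : Y ⟶ Z) (a : T.A X),
    T.down (f ≫ g) a = T.down g (T.down f a)

/-- The projection formula. -/
structure HasProjectionFormula : Prop where
  proj_right : ∀ {X Y : 𝒱.Obj} (f : X ⟶ Y) (a : T.A X) (b : T.A Y),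
    T.down f (T.mul a (T.up f b)) = T.mul (T.down f a) b
  proj_left : ∀ {X Y : 𝒱.Obj} (f : X ⟶ Y) (a : T.A X) (b : T.A Y),
    T.down f (T.mul (T.up f b) a) = T.mul b (T.down f a)

/-- Base change along the projections of products. -/
structure HasBaseChange : Prop where
  base_fst : ∀ {X Y : 𝒱.Obj} (f : X ⟶ Y) (Z : 𝒱.Obj) (a : T.A X),
    T.up (fst Y Z) (T.down f a) = T.down (prodMap f (𝟙 Z)) (T.up (fst X Z) a)
  base_snd : ∀ {X Y : 𝒱.Obj} (f : X ⟶ Y) (Z : 𝒱.Obj) (a : T.A X),
    T.up (snd Z Y) (T.down f a) = T.down (prodMap (𝟙 Z) f) (T.up (snd Z X) a)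

end TheoryData

/-- A theory with pull-backs and push-forwards on the varieties of the class `𝒱`: graded rings
`A(X)` (algebras over the field `F`), contravariant ring homomorphisms `f^*` preserving degrees,
covariant additive maps `f_*` which shift degrees by `δ (dim Y - dim X)`, the projection formula,
and base change along the projections of products. The Chow groups with rational coefficients
(`δ = 1`) and the Weil cohomology theories (`δ = 2`, Tate twists suppressed) are such theories. -/
class IsTheory {𝒱 : VarClass k} {F : Type w} [Field F] (T : TheoryData.{u, v, w} 𝒱 F)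
    (δ : outParam ℤ) : Prop where
  isGradedRing : T.IsGradedRing
  hasDegrees : T.HasDegrees δ
  isFunctor : T.IsFunctor
  hasProjectionFormula : T.HasProjectionFormula
  hasBaseChange : T.HasBaseChange

/-- The formal properties of the Chow groups with rational coefficients of the varieties of the
class `𝒱`: `A^i(X)` is the group of cycles of codimension `i` on `X` modulo rational
equivalence, with the intersection product, pull-backs and push-forwards; the product is
commutative, and every variety `X` carries a zero-cycle `a` of degree one (with rational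
coefficients), which enters through the property that, for every `Z`, the push-forward of `Z × a`
to `Z` is the fundamental class of `Z`. -/
class IsChow {𝒱 : VarClass k} (C : TheoryData.{u, v, 0} 𝒱 ℚ) : Prop where
  isTheory : IsTheory C 1
  mul_comm : ∀ {X : 𝒱.Obj} (a b : C.A X), C.mul a b = C.mul b a
  exists_deg_one : ∀ X : 𝒱.Obj, ∃ a : C.A X, C.Deg X.dim a ∧
    (∀ Z : 𝒱.Obj, C.down (fst Z X) (C.up (snd Z X) a) = 1) ∧
    (∀ Z : 𝒱.Obj, C.down (snd X Z) (C.up (fst X Z) a) = 1)

/-- The data of a Weil cohomology theory with coefficients in the field `K`: a theory `H(X)`,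
orientations `tr : H(X) → K`, and cycle class maps `cl : A(X) → H(X)`. -/
structure WeilTheoryData {𝒱 : VarClass k} (C : TheoryData.{u, v, 0} 𝒱 ℚ) (K : Type w) [Field K]
    extends TheoryData.{u, v, w} 𝒱 K where
  /-- the orientation -/
  tr : ∀ X, A X →ₗ[K] K
  /-- the cycle class map -/
  cl : ∀ {X}, C.A X →+* A X

section Weil

variable {𝒱 : VarClass k} {C : TheoryData.{u, v, 0} 𝒱 ℚ} {K : Type w} [Field K]
  (H : WeilTheoryData.{u, v, w} C K)

/-- The orientations satisfy Poincare duality and are compatible with push-forwards. -/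
structure WeilTheoryData.IsOriented : Prop where
  tr_push : ∀ {X Y : 𝒱.Obj} (f : X ⟶ Y) (a : H.A X), H.tr Y (H.down f a) = H.tr X a
  nondeg : ∀ {X : 𝒱.Obj} (a : H.A X), (∀ b, H.tr X (H.mul a b) = 0) → a = 0

/-- The spanning part of the Kunneth formula: `H^m(X × Y)` is spanned by the external products of
classes in `H^l(X)` and `H^(m-l)(Y)`. -/
def WeilTheoryData.KunnethFormula : Prop :=
  ∀ (X Y : 𝒱.Obj) (m : ℤ), H.gr (X.prod Y) m ≤ Submodule.span K
    {c | ∃ (l : ℤ) (a : H.A X) (b : H.A Y), H.Deg l a ∧ H.Deg (m - l) b ∧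
      c = H.mul (H.up (fst X Y) a) (H.up (snd X Y) b)}

/-- The cycle class maps (ring homomorphisms by definition) double the degrees, are compatible
with pull-backs and push-forwards, and have central values (the classes of cycles have even
degree). -/
structure WeilTheoryData.IsClassMap : Prop where
  cl_mem : ∀ {X : 𝒱.Obj} {i : ℤ} {z : C.A X}, C.Deg i z → H.Deg (2 * i) (H.cl z)
  cl_pull : ∀ {X Y : 𝒱.Obj} (f : X ⟶ Y) (z : C.A Y), H.cl (C.up f z) = H.up f (H.cl z)
  cl_push : ∀ {X Y : 𝒱.Obj} (f : X ⟶ Y) (z : C.A X), H.cl (C.down f z) = H.down f (H.cl z)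
  cl_central : ∀ {X : 𝒱.Obj} (z : C.A X) (a : H.A X), H.mul (H.cl z) a = H.mul a (H.cl z)

/-- `H` is a Weil cohomology theory on the varieties of the class `𝒱` with coefficients in the
field `K` (Tate twists are suppressed). Besides the formal properties of a theory, it has
orientations satisfying Poincare duality, the Kunneth formula (only the spanning part is
recorded), and cycle class maps which are ring homomorphisms compatible with pull-backs and
push-forwards, with values in the centre. No Lefschetz theorem is required. -/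
class IsWeil : Prop where
  isTheory : IsTheory H.toTheoryData 2
  isOriented : H.IsOriented
  kunnethFormula : H.KunnethFormula
  isClassMap : H.IsClassMap

/-- The correspondence `Γ` acts as zero on `H^m(X)`. -/
def Kills {X Y : 𝒱.Obj} (Γ : C.A (X.prod Y)) (m : ℤ) : Prop :=
  ∀ a : H.A X, H.Deg m a → H.act (H.cl Γ) a = 0

/-- Grothendieck's Kunneth standard conjecture (for all varieties of the class): for all `X` and
`m`, some self-correspondence of degree zero of `X` acts as the identity on `H^m(X)` and as zero on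
`H^l(X)`, `l ≠ m`. -/
def KunnethConjecture : Prop :=
  ∀ (X : 𝒱.Obj) (m : ℕ), ∃ π : C.A (X.prod X), C.Deg X.dim π ∧ ∀ (l : ℤ) (a : H.A X),
    H.Deg l a → H.act (H.cl π) a = if l = m then a else 0

/-- A family of descending filtrations of the Chow groups: `F X i n` is `F^n CH^i(X)`. -/
structure Filtration (C : TheoryData.{u, v, 0} 𝒱 ℚ) where
  /-- the steps of the filtrations -/
  F : ∀ X : 𝒱.Obj, ℕ → ℕ → Submodule ℚ (C.A X)
  le_gr : ∀ X i n, F X i n ≤ C.gr X i
  anti : ∀ X i n, F X i (n + 1) ≤ F X i n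

/-- The class `x` lies in `F^n CH^i(X)`. -/
abbrev Filtration.Mem (F : Filtration C) (i n : ℕ) {X : 𝒱.Obj} (x : C.A X) : Prop :=
  x ∈ F.F X i n

/-- Properties 1 and 2 of a Bloch-Beilinson filtration:
`F^0 CH^i(X) = CH^i(X)`, `F^1 CH^i(X)` consists of the homologically trivial cycles, and
`F^(i+1) CH^i(X) = 0`. -/
structure IsBounded (F : Filtration C) : Prop where
  zero : ∀ (X : 𝒱.Obj) (i : ℕ) (x : C.A X), F.Mem i 0 x ↔ C.Deg i x
  one : ∀ (X : 𝒱.Obj) (i : ℕ) (x : C.A X), F.Mem i 1 x ↔ C.Deg i x ∧ H.cl x = 0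
  top : ∀ (X : 𝒱.Obj) (i : ℕ) (x : C.A X), F.Mem i (i + 1) x → x = 0

/-- Properties 3 and 4 of a Bloch-Beilinson filtration: multiplicativity, and compatibility with
pull-backs and push-forwards. -/
structure IsMultiplicative (F : Filtration C) : Prop where
  mul : ∀ {X : 𝒱.Obj} {i j m n : ℕ} {x y : C.A X}, F.Mem i m x → F.Mem j n y →
    F.Mem (i + j) (m + n) (C.mul x y)
  pull : ∀ {X Y : 𝒱.Obj} (f : X ⟶ Y) {i n : ℕ} {y : C.A Y}, F.Mem i n y → F.Mem i n (C.up f y)
  push : ∀ {X Y : 𝒱.Obj} (f : X ⟶ Y) {i j n : ℕ} {x : C.A X}, i + Y.dim = j + X.dim →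
    F.Mem i n x → F.Mem j n (C.down f x)

/-- Property 5 of a Bloch-Beilinson filtration: assuming the Kunneth standard conjecture, the
action of the self-correspondences of degree zero of `X` on `Gr_F^n CH^i(X)` factors through their
action on `H^(2i-n)(X)`, that is, through `End(h_hom^(2i-n)(X))`. -/
def IsMotivic (F : Filtration C) : Prop :=
  KunnethConjecture H → ∀ (X : 𝒱.Obj) (i n : ℕ) (Γ : C.A (X.prod X)), C.Deg X.dim Γ →
    Kills H Γ (2 * i - n) → ∀ x, F.Mem i n x → F.Mem i (n + 1) (C.act Γ x)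

/-- A Bloch-Beilinson filtration (properties 1, 2, 3, 4 and 5). -/
structure IsBB (F : Filtration C) : Prop where
  bounded : IsBounded H F
  multiplicative : IsMultiplicative F
  motivic : IsMotivic H F

/-- The correspondence `Γ` from `X` to `Y` is admissible in degree `m`: it acts as zero on the
whole cohomology of `X` or, if the Kunneth standard conjecture holds, at least on `H^m(X)`. -/
def Admissible {X Y : 𝒱.Obj} (Γ : C.A (X.prod Y)) (m : ℤ) : Prop :=
  (∀ l, Kills H Γ l) ∨ (KunnethConjecture H ∧ Kills H Γ m)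

/-- `Chain H n X i x`: the class `x ∈ CH^i(X)` is obtained from a cycle class by applying
successively `n` correspondences, where the correspondence applied at the `(r+1)`-st step, to a
class in `CH^j(Z)`, is admissible in degree `2j - r` (so if the Kunneth standard conjecture holds
it is any correspondence, of any degree and with any target, which acts as zero on
`H^(2j-r)(Z)`). -/
inductive Chain : ℕ → (X : 𝒱.Obj) → ℕ → C.A X → Prop
  | nil (X : 𝒱.Obj) (i : ℕ) (x : C.A X) (hx : C.Deg i x) : Chain 0 X i x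
  | cons (r : ℕ) (Z X : 𝒱.Obj) (j i : ℕ) (z : C.A Z) (Γ : C.A (Z.prod X)) (hz : Chain r Z j z)
      (hΓ : C.Deg (Z.dim + i - j) Γ) (had : Admissible H Γ (2 * j - r)) :
      Chain (r + 1) X i (C.act Γ z)

/-- The strong form of a Bloch-Beilinson filtration with respect to correspondences: every
correspondence, of any degree, respects the filtration, and it maps `F^n CH^j(Z)` to
`F^(n+1) CH^i(X)` if it is admissible in degree `2j - n`. -/
structure IsStable (F : Filtration C) : Prop where
  stable : ∀ (Z X : 𝒱.Obj) (j i n : ℕ) (Γ : C.A (Z.prod X)), C.Deg (Z.dim + i - j) Γ →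
    ∀ z, F.Mem j n z → F.Mem i n (C.act Γ z)
  shift : ∀ (Z X : 𝒱.Obj) (j i n : ℕ) (Γ : C.A (Z.prod X)), C.Deg (Z.dim + i - j) Γ →
    Admissible H Γ (2 * j - n) → ∀ z, F.Mem j n z → F.Mem i (n + 1) (C.act Γ z)

end Weil

end Pool.Agent.W492.BB
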