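import Pool.Agent.W492.BB.Defs

/-!
# Calculus of correspondences
-/

open CategoryTheory AlgebraicGeometry

universe u v w

namespace Pool.Agent.W492.BB

open Pool.Agent.H914 Pool.Agent.H914.VarClass Pool.Agent.H914.VarClass.Obj

variable {k : Type u} [Field k] {𝒱 : VarClass k}

section maps

variable {X Y Z W : 𝒱.Obj}

@[reassoc (attr := simp)]
lemma prodMap_fst (f : X ⟶ Y) (g : Z ⟶ W) : prodMap f g ≫ fst Y W = fst X Z ≫ f :=
  lift_fst _ _

@[reassoc (attr := simp)]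
lemma prodMap_snd (f : X ⟶ Y) (g : Z ⟶ W) : prodMap f g ≫ snd Y W = snd X Z ≫ g :=
  lift_snd _ _

/-- The projection `(X × Y) × Z ⟶ X × Z`. -/
noncomputable def t13 (X Y Z : 𝒱.Obj) : (X.prod Y).prod Z ⟶ X.prod Z := prodMap (fst X Y) (𝟙 Z)

/-- The projection `(X × Y) × Z ⟶ Y × Z`. -/
noncomputable def t23 (X Y Z : 𝒱.Obj) : (X.prod Y).prod Z ⟶ Y.prod Z := prodMap (snd X Y) (𝟙 Z)

@[simp] lemma t13_fst : t13 X Y Z ≫ fst X Z = fst (X.prod Y) Z ≫ fst X Y := prodMap_fst _ _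
@[simp] lemma t23_fst : t23 X Y Z ≫ fst Y Z = fst (X.prod Y) Z ≫ snd X Y := prodMap_fst _ _
@[simp] lemma t13_snd : t13 X Y Z ≫ snd X Z = snd (X.prod Y) Z := by
  rw [t13, prodMap_snd, Category.comp_id]
@[simp] lemma t23_snd : t23 X Y Z ≫ snd Y Z = snd (X.prod Y) Z := by
  rw [t23, prodMap_snd, Category.comp_id]

/-- The projection `Z × (X × Y) ⟶ Z × X`. -/
noncomputable def u12 (Z X Y : 𝒱.Obj) : Z.prod (X.prod Y) ⟶ Z.prod X := prodMap (𝟙 Z) (fst X Y)

/-- The projection `Z × (X × Y) ⟶ Z × Y`. -/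
noncomputable def u13 (Z X Y : 𝒱.Obj) : Z.prod (X.prod Y) ⟶ Z.prod Y := prodMap (𝟙 Z) (snd X Y)

@[simp] lemma u12_snd : u12 Z X Y ≫ snd Z X = snd Z (X.prod Y) ≫ fst X Y := prodMap_snd _ _
@[simp] lemma u13_snd : u13 Z X Y ≫ snd Z Y = snd Z (X.prod Y) ≫ snd X Y := prodMap_snd _ _
@[simp] lemma u12_fst : u12 Z X Y ≫ fst Z X = fst Z (X.prod Y) := by
  rw [u12, prodMap_fst, Category.comp_id]
@[simp] lemma u13_fst : u13 Z X Y ≫ fst Z Y = fst Z (X.prod Y) := by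
  rw [u13, prodMap_fst, Category.comp_id]

end maps

namespace TheoryData

variable {F : Type w} [Field F] {δ : ℤ} (T : TheoryData.{u, v, w} 𝒱 F) [hT : IsTheory T δ]
  {X Y Z W : 𝒱.Obj}

lemma act_apply (Γ : T.A (X.prod Y)) (a : T.A X) :
    T.act Γ a = T.push (snd X Y) (Γ * T.pull (fst X Y) a) := rfl

include hT in
lemma isInternal (X) : DirectSum.IsInternal (T.gr X) := hT.isGradedRing.isInternal X
include hT in
lemma gr_neg (X : 𝒱.Obj) (i : ℤ) (h : i < 0) : T.gr X i = ⊥ := hT.isGradedRing.gr_neg X i h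
include hT in
lemma one_mem (X : 𝒱.Obj) : 1 ∈ T.gr X 0 := hT.isGradedRing.one_mem X
include hT in
lemma mul_mem {i j : ℤ} {a b : T.A X} (ha : a ∈ T.gr X i) (hb : b ∈ T.gr X j) :
    a * b ∈ T.gr X (i + j) := hT.isGradedRing.mul_mem ha hb
include hT in
lemma pull_mem (f : X ⟶ Y) {i : ℤ} {b : T.A Y} (hb : b ∈ T.gr Y i) : T.pull f b ∈ T.gr X i :=
  hT.hasDegrees.pull_mem f hb
lemma push_mem (f : X ⟶ Y) {i : ℤ} {a : T.A X} (ha : a ∈ T.gr X i) :
    T.push f a ∈ T.gr Y (i + δ * (Y.dim - X.dim)) := hT.hasDegrees.push_mem f ha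
include hT in
lemma pull_id (a : T.A X) : T.pull (𝟙 X) a = a := hT.isFunctor.pull_id a
include hT in
lemma pull_comp (f : X ⟶ Y) (g : Y ⟶ Z) (a : T.A Z) :
    T.pull (f ≫ g) a = T.pull f (T.pull g a) := hT.isFunctor.pull_comp f g a
include hT in
lemma push_id (a : T.A X) : T.push (𝟙 X) a = a := hT.isFunctor.push_id a
include hT in
lemma push_comp (f : X ⟶ Y) (g : Y ⟶ Z) (a : T.A X) :
    T.push (f ≫ g) a = T.push g (T.push f a) := hT.isFunctor.push_comp f g a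
include hT in
lemma proj_right (f : X ⟶ Y) (a : T.A X) (b : T.A Y) :
    T.push f (a * T.pull f b) = T.push f a * b := hT.hasProjectionFormula.proj_right f a b
include hT in
lemma proj_left (f : X ⟶ Y) (a : T.A X) (b : T.A Y) :
    T.push f (T.pull f b * a) = b * T.push f a := hT.hasProjectionFormula.proj_left f a b
include hT in
lemma base_fst (f : X ⟶ Y) (Z : 𝒱.Obj) (a : T.A X) :
    T.pull (fst Y Z) (T.push f a) = T.push (prodMap f (𝟙 Z)) (T.pull (fst X Z) a) :=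
  hT.hasBaseChange.base_fst f Z a
include hT in
lemma base_snd (f : X ⟶ Y) (Z : 𝒱.Obj) (a : T.A X) :
    T.pull (snd Z Y) (T.push f a) = T.push (prodMap (𝟙 Z) f) (T.pull (snd Z X) a) :=
  hT.hasBaseChange.base_snd f Z a

omit hT

lemma act_add (Γ Δ : T.A (X.prod Y)) (a : T.A X) : T.act (Γ + Δ) a = T.act Γ a + T.act Δ a := by
  rw [act_apply, add_mul, map_add]; rfl

lemma act_sub (Γ Δ : T.A (X.prod Y)) (a : T.A X) : T.act (Γ - Δ) a = T.act Γ a - T.act Δ a := by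
  rw [act_apply, sub_mul, map_sub]; rfl

lemma act_zero (a : T.A X) : T.act (0 : T.A (X.prod Y)) a = 0 := by
  rw [act_apply, zero_mul, map_zero]

/-- The action of a correspondence as a linear map. -/
noncomputable def actL (Γ : T.A (X.prod Y)) : T.A X →ₗ[F] T.A Y :=
  T.push (snd X Y) ∘ₗ LinearMap.mulLeft F Γ ∘ₗ (T.pull (fst X Y)).toLinearMap

lemma actL_apply (Γ : T.A (X.prod Y)) (a : T.A X) : T.actL Γ a = T.act Γ a := rfl

lemma act_map_zero (Γ : T.A (X.prod Y)) : T.act Γ 0 = 0 := map_zero (T.actL Γ)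

/-- Composition of correspondences. -/
noncomputable def comp (Γ : T.A (X.prod Y)) (Δ : T.A (Y.prod Z)) : T.A (X.prod Z) :=
  T.push (t13 X Y Z) (T.pull (t23 X Y Z) Δ * T.pull (fst (X.prod Y) Z) Γ)

/-- The graph of a morphism. -/
noncomputable def graph (f : X ⟶ Y) : T.A (X.prod Y) := T.push (Obj.lift (𝟙 X) f) 1

/-- The transpose of the graph of a morphism. -/
noncomputable def cograph (f : X ⟶ Y) : T.A (Y.prod X) := T.push (Obj.lift f (𝟙 X)) 1

/-- The correspondence inducing the multiplication by the class `c`. -/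
noncomputable def mulCorr (c : T.A X) : T.A (X.prod X) := T.push (Obj.lift (𝟙 X) (𝟙 X)) c

/-- The external product. -/
noncomputable def ext (a : T.A X) (b : T.A Y) : T.A (X.prod Y) :=
  T.pull (fst X Y) a * T.pull (snd X Y) b

/-- The operator `Γ × id` on `A(X × Z)`. -/
noncomputable def extL (Γ : T.A (X.prod Y)) (Z : 𝒱.Obj) (c : T.A (X.prod Z)) : T.A (Y.prod Z) :=
  T.push (t23 X Y Z) (T.pull (fst (X.prod Y) Z) Γ * T.pull (t13 X Y Z) c)

/-- The operator `id × Γ` on `A(Z × X)`. -/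
noncomputable def extR (Γ : T.A (X.prod Y)) (Z : 𝒱.Obj) (c : T.A (Z.prod X)) : T.A (Z.prod Y) :=
  T.push (u13 Z X Y) (T.pull (snd Z (X.prod Y)) Γ * T.pull (u12 Z X Y) c)

/-- The operator `Γ × id` as a linear map. -/
noncomputable def extLL (Γ : T.A (X.prod Y)) (Z : 𝒱.Obj) : T.A (X.prod Z) →ₗ[F] T.A (Y.prod Z) :=
  T.push (t23 X Y Z) ∘ₗ LinearMap.mulLeft F (T.pull (fst (X.prod Y) Z) Γ) ∘ₗ
    (T.pull (t13 X Y Z)).toLinearMap

/-- The operator `id × Γ` as a linear map. -/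
noncomputable def extRL (Γ : T.A (X.prod Y)) (Z : 𝒱.Obj) : T.A (Z.prod X) →ₗ[F] T.A (Z.prod Y) :=
  T.push (u13 Z X Y) ∘ₗ LinearMap.mulLeft F (T.pull (snd Z (X.prod Y)) Γ) ∘ₗ
    (T.pull (u12 Z X Y)).toLinearMap

lemma extLL_apply (Γ : T.A (X.prod Y)) (Z : 𝒱.Obj) (c : T.A (X.prod Z)) :
    T.extLL Γ Z c = T.extL Γ Z c := rfl

lemma extRL_apply (Γ : T.A (X.prod Y)) (Z : 𝒱.Obj) (c : T.A (Z.prod X)) :
    T.extRL Γ Z c = T.extR Γ Z c := rfl

lemma ext_zero_left (b : T.A Y) : T.ext (0 : T.A X) b = 0 := by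
  rw [ext, map_zero, zero_mul]

lemma ext_zero_right (a : T.A X) : T.ext a (0 : T.A Y) = 0 := by
  rw [ext, map_zero, mul_zero]

include hT

lemma act_comp (Γ : T.A (X.prod Y)) (Δ : T.A (Y.prod Z)) (a : T.A X) :
    T.act (T.comp Γ Δ) a = T.act Δ (T.act Γ a) := by
  rw [act_apply, comp, ← T.proj_right, ← T.push_comp, ← T.pull_comp, t13_fst, t13_snd,
    act_apply T Δ, act_apply T Γ, T.base_fst]
  change _ = T.push (snd Y Z) (Δ * T.push (t23 X Y Z) _)
  rw [← T.proj_left, ← T.push_comp, t23_snd, map_mul (T.pull (fst (X.prod Y) Z)), mul_assoc,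
    T.pull_comp]

lemma act_graph (f : X ⟶ Y) (a : T.A X) : T.act (T.graph f) a = T.push f a := by
  rw [act_apply, graph, ← T.proj_right, ← T.push_comp, ← T.pull_comp, lift_fst, lift_snd, one_mul,
    T.pull_id]

lemma act_cograph (f : X ⟶ Y) (b : T.A Y) : T.act (T.cograph f) b = T.pull f b := by
  rw [act_apply, cograph, ← T.proj_right, ← T.push_comp, ← T.pull_comp, lift_fst, lift_snd,
    one_mul, T.push_id]

lemma act_mulCorr (c a : T.A X) : T.act (T.mulCorr c) a = c * a := by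
  rw [act_apply, mulCorr, ← T.proj_right, ← T.push_comp, ← T.pull_comp, lift_fst, lift_snd,
    T.pull_id, T.push_id]

lemma extL_ext (Γ : T.A (X.prod Y)) (a : T.A X) (b : T.A Z) :
    T.extL Γ Z (T.ext a b) = T.ext (T.act Γ a) b := by
  rw [extL, ext, map_mul (T.pull (t13 X Y Z)), ← T.pull_comp, ← T.pull_comp, t13_fst, t13_snd,
    ← t23_snd, T.pull_comp (fst (X.prod Y) Z), T.pull_comp (t23 X Y Z), ← mul_assoc,
    ← map_mul (T.pull (fst (X.prod Y) Z)), T.proj_right]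
  change T.push (prodMap _ _) _ * _ = _
  rw [← T.base_fst]
  rfl

lemma extR_ext (Γ : T.A (X.prod Y)) (hΓ : ∀ c, T.pull (snd Z (X.prod Y)) Γ * c =
    c * T.pull (snd Z (X.prod Y)) Γ) (a : T.A Z) (b : T.A X) :
    T.extR Γ Z (T.ext a b) = T.ext a (T.act Γ b) := by
  rw [extR, ext, map_mul (T.pull (u12 Z X Y)), ← T.pull_comp, ← T.pull_comp, u12_fst, u12_snd,
    ← u13_fst, T.pull_comp (snd Z (X.prod Y)), T.pull_comp (u13 Z X Y), ← mul_assoc, hΓ, mul_assoc,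
    ← map_mul (T.pull (snd Z (X.prod Y))), T.proj_left]
  change _ * T.push (prodMap _ _) _ = _
  rw [← T.base_snd]
  rfl

end TheoryData

instance {C : TheoryData.{u, v, 0} 𝒱 ℚ} [hC : IsChow C] : IsTheory C 1 := hC.isTheory

instance {C : TheoryData.{u, v, 0} 𝒱 ℚ} {K : Type w} [Field K] {H : WeilTheoryData.{u, v, w} C K}
    [hH : IsWeil H] : IsTheory H.toTheoryData 2 := hH.isTheory

lemma chow_mul_comm {C : TheoryData.{u, v, 0} 𝒱 ℚ} [hC : IsChow C] {X : 𝒱.Obj} (a b : C.A X) :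
    a * b = b * a := hC.mul_comm a b

lemma exists_deg_one (C : TheoryData.{u, v, 0} 𝒱 ℚ) [hC : IsChow C] (X : 𝒱.Obj) :
    ∃ a ∈ C.gr X X.dim, (∀ Z : 𝒱.Obj, C.push (fst Z X) (C.pull (snd Z X) a) = 1) ∧
    (∀ Z : 𝒱.Obj, C.push (snd X Z) (C.pull (fst X Z) a) = 1) := hC.exists_deg_one X

namespace WeilTheoryData

variable {C : TheoryData.{u, v, 0} 𝒱 ℚ} {K : Type w} [Field K]
  (H : WeilTheoryData.{u, v, w} C K) [hH : IsWeil H] {X Y : 𝒱.Obj}

include hH

lemma tr_push (f : X ⟶ Y) (a : H.A X) : H.tr Y (H.push f a) = H.tr X a :=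
  hH.isOriented.tr_push f a
lemma nondeg (a : H.A X) (h : ∀ b, H.tr X (a * b) = 0) : a = 0 := hH.isOriented.nondeg a h
lemma kunneth (X Y : 𝒱.Obj) (m : ℤ) : H.gr (X.prod Y) m ≤ Submodule.span K
    {c | ∃ (l : ℤ) (a : H.A X) (b : H.A Y), a ∈ H.gr X l ∧ b ∈ H.gr Y (m - l) ∧
      c = H.pull (fst X Y) a * H.pull (snd X Y) b} := hH.kunnethFormula X Y m
lemma cl_mem {i : ℤ} {z : C.A X} (hz : z ∈ C.gr X i) : H.cl z ∈ H.gr X (2 * i) :=
  hH.isClassMap.cl_mem hz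
lemma cl_pull (f : X ⟶ Y) (z : C.A Y) : H.cl (C.pull f z) = H.pull f (H.cl z) :=
  hH.isClassMap.cl_pull f z
lemma cl_push (f : X ⟶ Y) (z : C.A X) : H.cl (C.push f z) = H.push f (H.cl z) :=
  hH.isClassMap.cl_push f z
lemma cl_central (z : C.A X) (a : H.A X) : H.cl z * a = a * H.cl z :=
  hH.isClassMap.cl_central z a

end WeilTheoryData

end Pool.Agent.W492.BB
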