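import Pool.Agent.W492.BB.Main

/-!
# Bloch-Beilinson filtrations and chains
-/

open CategoryTheory AlgebraicGeometry

universe u v w

namespace Pool.Agent.W492.BB

open Pool.Agent.H914 Pool.Agent.H914.VarClass Pool.Agent.H914.VarClass.Obj

variable {k : Type u} [Field k] {𝒱 : VarClass k} {C : TheoryData.{u, v, 0} 𝒱 ℚ} {K : Type w}
  [Field K] {H : WeilTheoryData.{u, v, w} C K} [hC : IsChow C] [hH : IsWeil H] {X Y Z W : 𝒱.Obj}

section bridge

variable {F : Filtration C}

omit hC hH in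
lemma IsBounded.zero' (hF : IsBounded H F) {i : ℕ} {x : C.A X} :
    x ∈ F.F X i 0 ↔ x ∈ C.gr X i := hF.zero X i x

omit hC hH in
lemma IsBounded.one' (hF : IsBounded H F) {i : ℕ} {x : C.A X} :
    x ∈ F.F X i 1 ↔ x ∈ C.gr X i ∧ H.cl x = 0 := hF.one X i x

omit hC in
lemma IsMultiplicative.mul' (hF : IsMultiplicative F) {i j m n : ℕ} {x y : C.A X}
    (hx : x ∈ F.F X i m) (hy : y ∈ F.F X j n) : x * y ∈ F.F X (i + j) (m + n) := hF.mul hx hy

omit hC in
lemma IsMultiplicative.pull' (hF : IsMultiplicative F) (f : X ⟶ Y) {i n : ℕ} {y : C.A Y}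
    (hy : y ∈ F.F Y i n) : C.pull f y ∈ F.F X i n := hF.pull f hy

omit hC in
lemma IsMultiplicative.push' (hF : IsMultiplicative F) (f : X ⟶ Y) {i j n : ℕ} {x : C.A X}
    (hij : i + Y.dim = j + X.dim) (hx : x ∈ F.F X i n) : C.push f x ∈ F.F Y j n :=
  hF.push f hij hx

end bridge

/-! ### From the vanishing of chains to a filtration -/

variable (H) in
/-- The chain filtration. -/
noncomputable def chainFiltration : Filtration C where
  F := FS H
  le_gr := FS_le_gr
  anti := FS_anti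

lemma FS_one (X : 𝒱.Obj) (i : ℕ) (x : C.A X) :
    x ∈ FS H X i 1 ↔ x ∈ C.gr X i ∧ H.cl x = 0 := by
  constructor
  · intro hx
    refine ⟨FS_le_gr X i 1 hx, ?_⟩
    induction hx using Submodule.span_induction with
    | mem x hx =>
      cases hx with
      | cons r Z _ j _ z Γ hz hΓ had =>
        rw [cl_act]
        rw [adm_iff] at had
        rcases had with had | ⟨_, had⟩
        · exact had _
        · apply had
          have := H.cl_mem hz.mem_gr
          rwa [show 2 * (j : ℤ) = 2 * j - (0 : ℕ) by simp] at this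
    | zero => exact map_zero _
    | add x y _ _ hx hy => rw [map_add, hx, hy, add_zero]
    | smul q x _ hx =>
      have h1 : H.cl (q • x) = H.cl (algebraMap ℚ _ q) * H.cl x := by
        rw [← map_mul, Algebra.algebraMap_eq_smul_one, smul_mul_assoc, one_mul]
      rw [h1, hx, mul_zero]
  · rintro ⟨hx, hx0⟩
    obtain ⟨a, ha, -, ha2⟩ := exists_deg_one C X
    have hΓ : C.pull (snd X X) x ∈ C.gr (X.prod X) (X.dim + i - X.dim) := by
      rw [show (X.dim : ℤ) + i - X.dim = i by ring]
      exact C.pull_mem _ hx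
    have h1 : C.act (C.pull (snd X X) x) a = x := by
      rw [TheoryData.act_apply, C.proj_left, ha2, mul_one]
    have h2 : Chain H 1 X i (C.act (C.pull (snd X X) x) a) := by
      refine Chain.cons 0 X X X.dim i a _ (Chain.nil X X.dim a ha) hΓ (Or.inl ?_)
      intro l b _
      rw [H.cl_pull, hx0, map_zero, H.act_zero]
    rw [h1] at h2
    exact Submodule.subset_span h2

lemma isBounded_chain (h : ∀ (X : 𝒱.Obj) (i : ℕ) (x : C.A X), Chain H (i + 1) X i x → x = 0) :
    IsBounded H (chainFiltration H) where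
  zero X i x := by
    change x ∈ FS H X i 0 ↔ _
    rw [FS_zero]
  one := FS_one
  top X i x hx := by
    have h1 : FS H X i (i + 1) ≤ ⊥ := FS_induction fun x hx => (Submodule.mem_bot _).2 (h X i x hx)
    exact (Submodule.mem_bot _).1 (h1 hx)

lemma isMultiplicative_chain : IsMultiplicative (chainFiltration H) where
  mul {X i j m n x y} hx hy := by
    have h1 := extProp (H := H) m n X X i j x hx y hy
    have h2 := FS_realised (i := i + j) (Realised.pull (H := H) (Obj.lift (𝟙 X) (𝟙 X)))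
      (by ring) h1
    have h3 : C.pull (Obj.lift (𝟙 X) (𝟙 X)) (C.ext x y) = x * y := by
      rw [TheoryData.ext, map_mul, ← C.pull_comp, ← C.pull_comp, lift_fst, lift_snd, C.pull_id,
        C.pull_id]
    rw [h3] at h2
    exact h2
  pull {X Y} f {i n y} hy := FS_realised (i := i) (Realised.pull (H := H) f) (by ring) hy
  push {X Y} f {i j n x} hij hx := by
    refine FS_realised (i := j) (Realised.push (H := H) f) ?_ hx
    have : ((i + Y.dim : ℕ) : ℤ) = ((j + X.dim : ℕ) : ℤ) := by rw [hij]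
    push_cast at this
    linarith

lemma isStable_chain : IsStable H (chainFiltration H) where
  stable Z X j i n Γ hΓ z hz := by
    rw [show (Z.dim : ℤ) + i - j = Z.dim + (i - j) by ring] at hΓ
    exact FS_act hΓ hz
  shift Z X j i n Γ hΓ had z hz := by
    rw [show (Z.dim : ℤ) + i - j = Z.dim + (i - j) by ring] at hΓ
    exact FS_shift hΓ (adm_iff.1 had) hz

lemma isMotivic_chain : IsMotivic H (chainFiltration H) := by
  intro hK X i n Γ hΓ hkill x hx
  refine isStable_chain.shift X X i i n Γ ?_ (Or.inr ⟨hK, hkill⟩) x hx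
  rwa [show (X.dim : ℤ) + i - i = X.dim by ring]

lemma isBB_chain (h : ∀ (X : 𝒱.Obj) (i : ℕ) (x : C.A X), Chain H (i + 1) X i x → x = 0) :
    IsBB H (chainFiltration H) :=
  ⟨isBounded_chain h, isMultiplicative_chain, isMotivic_chain⟩

/-! ### A Bloch-Beilinson filtration contains the chain filtration -/

lemma chain_mem_of_stable {F : Filtration C} (hF : IsBounded H F) (hS : IsStable H F) {n : ℕ}
    {X : 𝒱.Obj} {i : ℕ} {x : C.A X} (h : Chain H n X i x) : x ∈ F.F X i n := by
  induction h with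
  | nil X i x hx => exact hF.zero'.2 hx
  | cons r Z X j i z Γ hz hΓ had ih => exact hS.shift Z X j i r Γ hΓ had z ih

section weak

variable {F : Filtration C} (hF : IsBB H F)
include hF

lemma homTrivial_shift {i j r : ℕ} {Γ : C.A (Z.prod X)}
    (hΓ : Γ ∈ C.gr (Z.prod X) (Z.dim + i - j)) (h0 : H.cl Γ = 0) {z : C.A Z}
    (hz : z ∈ F.F Z j r) : C.act Γ z ∈ F.F X i (r + 1) := by
  rcases lt_or_ge ((Z.dim : ℤ) + i - j) 0 with hneg | hpos
  · rw [C.gr_neg _ _ hneg] at hΓ
    rw [(Submodule.mem_bot _).1 hΓ, C.act_zero]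
    exact Submodule.zero_mem _
  · obtain ⟨p, hp⟩ := Int.eq_ofNat_of_zero_le hpos
    have h1 : Γ ∈ F.F (Z.prod X) p 1 := by
      rw [hF.bounded.one']
      refine ⟨?_, h0⟩
      rw [hp] at hΓ
      exact hΓ
    have h2 := hF.multiplicative.mul' h1 (hF.multiplicative.pull' (fst Z X) hz)
    have h3 := hF.multiplicative.push' (snd Z X) (j := i) (by rw [dim_prod]; omega) h2
    rw [add_comm r 1]
    exact h3

/-- Correspondences of degree zero between different varieties. -/
lemma shift_zero (hK : KunnethConjecture H) {i r : ℕ} {φ : C.A Z → C.A X} {ψ : H.A Z → H.A X}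
    (hr : Realised H Z X 0 φ ψ) (hψ : ∀ a ∈ H.gr Z (2 * i - r), ψ a = 0) {z : C.A Z}
    (hz : z ∈ F.F Z i r) : φ z ∈ F.F X i (r + 1) := by
  obtain ⟨a, ha, ha1, -⟩ := exists_deg_one C X
  obtain ⟨b, hb, -, hb2⟩ := exists_deg_one C Z
  -- the self-correspondence of `Z × X`
  have hr1 : Realised H (Z.prod X) (Z.prod X) 0
      (fun w => C.pull (snd Z X) (φ (C.push (fst Z X) (C.pull (snd Z X) a * w))))
      (fun w => H.pull (snd Z X) (ψ (H.push (fst Z X) (H.cl (C.pull (snd Z X) a) * w)))) :=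
    ((((Realised.mul (C.pull_mem (snd Z X) ha)).comp (Realised.push (fst Z X))).comp hr).comp
      (Realised.pull (snd Z X))).congr (by rw [dim_prod]; push_cast; ring) (fun _ => rfl)
      (fun _ => rfl)
  obtain ⟨T, hT, hT1, hT2⟩ := hr1
  rw [add_zero] at hT
  have hkill : Kills H T (2 * i - r) := by
    intro w hw
    rw [hT2]
    beta_reduce
    rw [hψ, map_zero]
    have h1 := H.push_mem (fst Z X) (H.mul_mem (H.cl_mem (C.pull_mem (snd Z X) ha)) hw)
    rwa [show 2 * (X.dim : ℤ) + (2 * i - r) + 2 * ((Z.dim : ℤ) - ((Z.prod X).dim : ℤ)) =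
      2 * i - r by rw [dim_prod]; push_cast; ring] at h1
  have h1 := hF.motivic hK (Z.prod X) i r T hT hkill _ (hF.multiplicative.pull' (fst Z X) hz)
  rw [hT1] at h1
  beta_reduce at h1
  rw [C.proj_right, ha1, one_mul] at h1
  have hb0 : b ∈ F.F Z Z.dim 0 := hF.bounded.zero'.2 hb
  have h2 := hF.multiplicative.mul' (hF.multiplicative.pull' (fst Z X) hb0) h1
  have h3 := hF.multiplicative.push' (snd Z X) (j := i) (by rw [dim_prod]; omega) h2
  rw [C.proj_right, hb2, one_mul, zero_add] at h3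
  exact h3

lemma shift_general (hdim : ∀ n : ℕ, ∃ Q : 𝒱.Obj, Q.dim = n) (hK : KunnethConjecture H)
    {i j r : ℕ} {Γ : C.A (Z.prod X)} (hΓ : Γ ∈ C.gr (Z.prod X) (Z.dim + i - j))
    (hkill : Kills H Γ (2 * j - r)) {z : C.A Z} (hz : z ∈ F.F Z j r) :
    C.act Γ z ∈ F.F X i (r + 1) := by
  rw [show (Z.dim : ℤ) + i - j = Z.dim + (i - j) by ring] at hΓ
  rcases le_total j i with hji | hij
  · obtain ⟨Q, hQ⟩ := hdim (i - j)
    obtain ⟨a, ha, ha1, -⟩ := exists_deg_one C Q
    have ha0 : a ∈ F.F Q Q.dim 0 := hF.bounded.zero'.2 ha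
    have hz1 : C.pull (fst Z Q) z * C.pull (snd Z Q) a ∈ F.F (Z.prod Q) i r := by
      have := hF.multiplicative.mul' (hF.multiplicative.pull' (fst Z Q) hz)
        (hF.multiplicative.pull' (snd Z Q) ha0)
      rwa [show j + Q.dim = i by omega, add_zero] at this
    have hr := shift_zero hF hK (X := X) (i := i) (r := r)
      (((Realised.push (H := H) (fst Z Q)).comp (Realised.of hΓ)).congr (e' := 0)
        (by rw [dim_prod, hQ]; push_cast [hji]; ring) (fun _ => rfl) (fun _ => rfl)) (by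
        intro w hw
        apply hkill
        have h1 := H.push_mem (fst Z Q) hw
        rwa [show 2 * (i : ℤ) - r + 2 * ((Z.dim : ℤ) - ((Z.prod Q).dim : ℤ)) = 2 * j - r by
          rw [dim_prod, hQ]; push_cast [hji]; ring] at h1) hz1
    rw [C.proj_left, ha1, mul_one] at hr
    exact hr
  · obtain ⟨Q, hQ⟩ := hdim (j - i)
    obtain ⟨a, ha, ha1, -⟩ := exists_deg_one C Q
    have hr := shift_zero hF hK (X := X.prod Q) (i := j) (r := r)
      (((((Realised.of (H := H) hΓ).comp (Realised.pull (fst X Q))).comp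
        (Realised.mul (C.pull_mem (snd X Q) ha))).congr (e' := 0)
        (by rw [hQ]; push_cast [hij]; ring) (fun _ => rfl) (fun _ => rfl))) (by
        intro w hw
        rw [hkill w hw, map_zero, mul_zero]) hz
    have h3 := hF.multiplicative.push' (fst X Q) (j := i) (by rw [dim_prod]; omega) hr
    rw [C.proj_right, ha1, one_mul] at h3
    exact h3

lemma chain_mem_of_isBB (hdim : ∀ n : ℕ, ∃ Q : 𝒱.Obj, Q.dim = n) {n : ℕ}
    {X : 𝒱.Obj} {i : ℕ} {x : C.A X} (h : Chain H n X i x) : x ∈ F.F X i n := by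
  induction h with
  | nil X i x hx => exact hF.bounded.zero'.2 hx
  | cons r Z X j i z Γ hz hΓ had ih =>
    rcases had with had | ⟨hK, had⟩
    · exact homTrivial_shift hF hΓ (eq_zero_of_act H _ (act_eq_zero_of_kills H Γ had)) ih
    · exact shift_general hF hdim hK hΓ had ih

end weak

theorem tfae (H : WeilTheoryData.{u, v, w} C K) [IsWeil H] (hdim : ∀ n : ℕ, ∃ Q : 𝒱.Obj, Q.dim = n) :
    [∃ F : Filtration C, IsBB H F,
     ∃ F : Filtration C, IsBounded H F ∧ IsStable H F,
     ∃ F : Filtration C, IsBB H F ∧ IsStable H F,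
     ∀ (X : 𝒱.Obj) (i : ℕ) (x : C.A X), Chain H (i + 1) X i x → x = 0].TFAE := by
  tfae_have 1 → 4 := by
    rintro ⟨F, hF⟩ X i x hx
    exact hF.bounded.top X i x (chain_mem_of_isBB hF hdim hx)
  tfae_have 2 → 4 := by
    rintro ⟨F, hF, hS⟩ X i x hx
    exact hF.top X i x (chain_mem_of_stable hF hS hx)
  tfae_have 4 → 3 := fun h => ⟨chainFiltration H, isBB_chain h, isStable_chain⟩
  tfae_have 3 → 1 := fun ⟨F, hF, _⟩ => ⟨F, hF⟩
  tfae_have 3 → 2 := fun ⟨F, hF, hS⟩ => ⟨F, hF.bounded, hS⟩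
  tfae_finish

end Pool.Agent.W492.BB
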