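import Pool.Agent.W492.BB.Real

/-!
# The chain filtration
-/

open CategoryTheory AlgebraicGeometry

universe u v w

namespace Pool.Agent.W492.BB

open Pool.Agent.H914 Pool.Agent.H914.VarClass Pool.Agent.H914.VarClass.Obj

variable {k : Type u} [Field k] {𝒱 : VarClass k} {C : TheoryData.{u, v, 0} 𝒱 ℚ} {K : Type w}
  [Field K] (H : WeilTheoryData.{u, v, w} C K) [hC : IsChow C] [hH : IsWeil H] {X Y Z W : 𝒱.Obj}

/-- The operator `ψ` on cohomology is admissible in degree `m`. -/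
def Adm (X Y : 𝒱.Obj) (ψ : H.A X → H.A Y) (m : ℤ) : Prop :=
  (∀ a, ψ a = 0) ∨ (KunnethConjecture H ∧ ∀ a ∈ H.gr X m, ψ a = 0)

variable {H}

lemma adm_iff {Γ : C.A (X.prod Y)} {m : ℤ} :
    Admissible H Γ m ↔ Adm H X Y (H.act (H.cl Γ)) m := by
  constructor
  · rintro (h | h)
    · exact Or.inl (act_eq_zero_of_kills H Γ h)
    · exact Or.inr h
  · rintro (h | h)
    · exact Or.inl (fun l a _ => h a)
    · exact Or.inr h

lemma Chain.mem_gr {n : ℕ} {i : ℕ} {x : C.A X} (h : Chain H n X i x) : x ∈ C.gr X i := by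
  induction h with
  | nil _ _ _ hx => exact hx
  | cons r Z X j i z Γ hz hΓ had ih =>
    have e1 : (Z.dim : ℤ) + i - j = Z.dim + (i - j) := by ring
    rw [e1] at hΓ
    have := act_mem hΓ ih
    rwa [show (j : ℤ) + (i - j) = i by ring] at this

lemma Chain.shift {n : ℕ} {i j : ℕ} {z : C.A Z} (h : Chain H n Z j z) {e : ℤ}
    {φ : C.A Z → C.A X} {ψ : H.A Z → H.A X} (hr : Realised H Z X e φ ψ) (he : e = i - j)
    (had : Adm H Z X ψ (2 * j - n)) : Chain H (n + 1) X i (φ z) := by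
  obtain ⟨Γ, hΓ, h1, h2⟩ := hr
  rw [← h1]
  refine Chain.cons n Z X j i z Γ h ?_ ?_
  · rw [he] at hΓ
    rwa [show (Z.dim : ℤ) + (i - j) = Z.dim + i - j by ring] at hΓ
  · rw [adm_iff]
    rcases had with had | ⟨hK, had⟩
    · exact Or.inl fun a => by rw [h2, had]
    · exact Or.inr ⟨hK, fun a ha => by rw [h2, had a ha]⟩

lemma Chain.stab {n : ℕ} {i j : ℕ} {z : C.A Z} (h : Chain H n Z j z) {e : ℤ}
    {φ : C.A Z → C.A X} {ψ : H.A Z → H.A X} (hr : Realised H Z X e φ ψ) (he : e = i - j)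
    (hψ : ψ 0 = 0) : Chain H n X i (φ z) := by
  cases h with
  | nil _ _ _ hx =>
    apply Chain.nil
    obtain ⟨Γ, hΓ, h1, h2⟩ := hr
    rw [← h1]
    have := act_mem hΓ hx
    rwa [he, show (j : ℤ) + (i - j) = i by ring] at this
  | cons r Y _ l _ y Δ hy hΔ had =>
    have e1 : (Y.dim : ℤ) + j - l = Y.dim + (j - l) := by ring
    rw [e1] at hΔ
    refine hy.shift ((Realised.of (H := H) hΔ).comp hr) (by rw [he]; ring) ?_
    rw [adm_iff] at had
    rcases had with had | ⟨hK, had⟩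
    · exact Or.inl fun a => by beta_reduce; rw [had, hψ]
    · exact Or.inr ⟨hK, fun a ha => by beta_reduce; rw [had a ha, hψ]⟩

variable (H) in
/-- The chain filtration. -/
def FS (X : 𝒱.Obj) (i n : ℕ) : Submodule ℚ (C.A X) := Submodule.span ℚ {x | Chain H n X i x}

lemma FS_le_gr (X : 𝒱.Obj) (i n : ℕ) : FS H X i n ≤ C.gr X i :=
  Submodule.span_le.2 fun _ hx => hx.mem_gr

lemma FS_zero (X : 𝒱.Obj) (i : ℕ) : FS H X i 0 = C.gr X i :=
  le_antisymm (FS_le_gr X i 0) fun x hx => Submodule.subset_span (Chain.nil X i x hx)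

/-- Induction along the span. -/
lemma FS_induction {X : 𝒱.Obj} {i n : ℕ} {S : Submodule ℚ (C.A X)}
    (h : ∀ x, Chain H n X i x → x ∈ S) : FS H X i n ≤ S := Submodule.span_le.2 h

lemma FS_act {n : ℕ} {i j : ℕ} {Γ : C.A (Z.prod X)} (hΓ : Γ ∈ C.gr (Z.prod X) (Z.dim + (i - j)))
    {z : C.A Z} (hz : z ∈ FS H Z j n) : C.act Γ z ∈ FS H X i n := by
  have : FS H Z j n ≤ (FS H X i n).comap (C.actL Γ) := FS_induction fun x hx =>
    Submodule.subset_span (hx.stab (Realised.of (H := H) hΓ) rfl (H.act_map_zero _))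
  exact this hz

lemma FS_shift {n : ℕ} {i j : ℕ} {Γ : C.A (Z.prod X)} (hΓ : Γ ∈ C.gr (Z.prod X) (Z.dim + (i - j)))
    (had : Adm H Z X (H.act (H.cl Γ)) (2 * j - n)) {z : C.A Z} (hz : z ∈ FS H Z j n) :
    C.act Γ z ∈ FS H X i (n + 1) := by
  have : FS H Z j n ≤ (FS H X i (n + 1)).comap (C.actL Γ) := FS_induction fun x hx =>
    Submodule.subset_span (hx.shift (Realised.of (H := H) hΓ) rfl had)
  exact this hz

lemma FS_realised {n : ℕ} {i j : ℕ} {e : ℤ} {φ : C.A Z → C.A X} {ψ : H.A Z → H.A X}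
    (hr : Realised H Z X e φ ψ) (he : e = i - j) {z : C.A Z} (hz : z ∈ FS H Z j n) :
    φ z ∈ FS H X i n := by
  obtain ⟨Γ, hΓ, h1, h2⟩ := hr
  rw [← h1]
  exact FS_act (by rwa [he] at hΓ) hz

lemma FS_realised_shift {n : ℕ} {i j : ℕ} {e : ℤ} {φ : C.A Z → C.A X} {ψ : H.A Z → H.A X}
    (hr : Realised H Z X e φ ψ) (he : e = i - j) (had : Adm H Z X ψ (2 * j - n))
    {z : C.A Z} (hz : z ∈ FS H Z j n) : φ z ∈ FS H X i (n + 1) := by
  obtain ⟨Γ, hΓ, h1, h2⟩ := hr
  rw [← h1]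
  refine FS_shift (by rwa [he] at hΓ) ?_ hz
  rcases had with had | ⟨hK, had⟩
  · exact Or.inl fun a => by rw [h2, had]
  · exact Or.inr ⟨hK, fun a ha => by rw [h2, had a ha]⟩

lemma FS_anti (X : 𝒱.Obj) (i n : ℕ) : FS H X i (n + 1) ≤ FS H X i n := by
  refine FS_induction fun x hx => ?_
  cases hx with
  | cons r Z _ j _ z Γ hz hΓ had =>
    rw [show (Z.dim : ℤ) + i - j = Z.dim + (i - j) by ring] at hΓ
    exact FS_act hΓ (Submodule.subset_span hz)

lemma FS_anti' (X : 𝒱.Obj) (i : ℕ) {m n : ℕ} (h : m ≤ n) : FS H X i n ≤ FS H X i m := by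
  induction h with
  | refl => exact le_rfl
  | step _ ih => exact (FS_anti X i _).trans ih

/-- The Kunneth projectors in all degrees. -/
lemma exists_projector (hK : KunnethConjecture H) (X : 𝒱.Obj) (m : ℤ) :
    ∃ π ∈ C.gr (X.prod X) X.dim, ∀ l, ∀ a ∈ H.gr X l,
      H.act (H.cl π) a = if l = m then a else 0 := by
  rcases lt_or_ge m 0 with hm | hm
  · refine ⟨0, Submodule.zero_mem _, fun l a ha => ?_⟩
    rw [map_zero, H.act_zero]
    split_ifs with h
    · rw [h, H.gr_neg X m hm] at ha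
      exact ((Submodule.mem_bot _).1 ha).symm
    · rfl
  · obtain ⟨n, rfl⟩ := Int.eq_ofNat_of_zero_le hm
    exact hK X n

/-- External products: the basic statement. -/
def ExtProp (H : WeilTheoryData.{u, v, w} C K) (m n : ℕ) : Prop :=
  ∀ (X Y : 𝒱.Obj) (i j : ℕ), ∀ x ∈ FS H X i m, ∀ y ∈ FS H Y j n,
    C.ext x y ∈ FS H (X.prod Y) (i + j) (m + n)

lemma ext_add_left (x x' : C.A X) (y : C.A Y) : C.ext (x + x') y = C.ext x y + C.ext x' y := by
  rw [TheoryData.ext, map_add, add_mul]; rfl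

lemma ext_add_right (x : C.A X) (y y' : C.A Y) : C.ext x (y + y') = C.ext x y + C.ext x y' := by
  rw [TheoryData.ext, map_add, mul_add]; rfl

/-- External multiplication as a linear map in the left variable. -/
noncomputable def extLin (y : C.A Y) : C.A X →ₗ[ℚ] C.A (X.prod Y) where
  toFun x := C.ext x y
  map_add' x x' := ext_add_left x x' y
  map_smul' r x := by
    rw [TheoryData.ext, map_smul, smul_mul_assoc]; rfl

lemma realised_ext_left {i : ℕ} (x : C.A X) (hx : x ∈ C.gr X i) :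
    Realised H Y (X.prod Y) i (fun y => C.ext x y)
      (fun b => H.cl (C.pull (fst X Y) x) * H.pull (snd X Y) b) :=
  ((Realised.pull (snd X Y)).comp (Realised.mul (C.pull_mem (fst X Y) hx))).congr (zero_add _)
    (fun _ => rfl) (fun _ => rfl)

lemma extProp_zero (n : ℕ) : ExtProp H 0 n := by
  intro X Y i j x hx y hy
  rw [FS_zero] at hx
  have := FS_realised (i := i + j) (n := n) (realised_ext_left (H := H) (Y := Y) x hx)
    (by push_cast; ring) hy
  rwa [zero_add]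

lemma ext_mem {i j j' n : ℕ} {Γ : C.A (Z.prod X)}
    (hΓ : Γ ∈ C.gr (Z.prod X) (Z.dim + (i - j))) {z : C.A Z} {y : C.A Y}
    (hzy : C.ext z y ∈ FS H (Z.prod Y) (j + j') n)
    (had : Adm H (Z.prod Y) (X.prod Y) (H.extL (H.cl Γ) Y) (2 * (j + j' : ℕ) - n)) :
    C.ext (C.act Γ z) y ∈ FS H (X.prod Y) (i + j') (n + 1) := by
  rw [← C.extL_ext]
  exact FS_realised_shift (Realised.extL hΓ Y) (by push_cast; ring) had hzy

lemma extL_eq_zero {Γ : C.A (Z.prod X)} (h : ∀ a, H.act (H.cl Γ) a = 0) (c : H.A (Z.prod Y)) :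
    H.extL (H.cl Γ) Y c = 0 := by
  have : H.cl Γ = 0 := eq_zero_of_act H _ h
  rw [this, TheoryData.extL, map_zero, zero_mul, map_zero]

lemma kill_product {Γ : C.A (Z.prod X)} {π : C.A (Y.prod Y)} {p q N : ℤ} (hN : p + q = N)
    (had : ∀ a ∈ H.gr Z p, H.act (H.cl Γ) a = 0)
    (hπ : ∀ l, ∀ a ∈ H.gr Y l, H.act (H.cl π) a = if l = q then a else 0) (c : H.A (Z.prod Y))
    (hc : c ∈ H.gr (Z.prod Y) N) : H.extL (H.cl Γ) Y (H.extR (H.cl π) Z c) = 0 := by
  have h1 : H.gr (Z.prod Y) N ≤ LinearMap.ker (H.extLL (H.cl Γ) Y ∘ₗ H.extRL (H.cl π) Z) := by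
    refine (H.kunneth Z Y N).trans (Submodule.span_le.2 ?_)
    rintro _ ⟨l, a, b, ha, hb, rfl⟩
    refine LinearMap.mem_ker.2 ?_
    change H.extL (H.cl Γ) Y (H.extR (H.cl π) Z (H.ext a b)) = 0
    rw [H.extR_ext _ (fun c => by rw [← H.cl_pull]; exact H.cl_central _ _), H.extL_ext,
      hπ _ b hb]
    split_ifs with hl
    · rw [had a (by rwa [show p = l by linarith]), H.ext_zero_left]
    · rw [H.ext_zero_right]
  exact LinearMap.mem_ker.1 (h1 hc)

lemma extProp_step_aux {N m n : ℕ} (hN : m + n = N)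
    (h1 : ∀ m' n', m' + n' = N → ExtProp H m' n') (h2 : ExtProp H m (n + 1))
    (hK : KunnethConjecture H) (X Y Z : 𝒱.Obj) (i j' j : ℕ) (y : C.A Y) (hy : y ∈ FS H Y j' n)
    (z : C.A Z) (Γ : C.A (Z.prod X)) (hx0 : C.act Γ z ∈ FS H X i m) (hzm : z ∈ FS H Z j m)
    (hΓ : Γ ∈ C.gr (Z.prod X) (Z.dim + (i - j)))
    (had : ∀ a ∈ H.gr Z (2 * j - m), H.act (H.cl Γ) a = 0) :
    C.ext (C.act Γ z) y ∈ FS H (X.prod Y) (i + j') (m + n + 1) := by
  obtain ⟨π, hπ, hπ'⟩ := exists_projector hK Y (2 * j' - n)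
  have hπ0 : π ∈ C.gr (Y.prod Y) (Y.dim + ((j' : ℤ) - j')) := by
    rwa [show (Y.dim : ℤ) + ((j' : ℤ) - j') = Y.dim by ring]
  have hy1 : y - C.act π y ∈ FS H Y j' (n + 1) := by
    refine FS_realised_shift (i := j') ((Realised.id Y).sub (Realised.of (H := H) (e := 0)
      (by rwa [add_zero]))) (by ring) (Or.inr ⟨hK, fun a ha => ?_⟩) hy
    beta_reduce
    rw [hπ' _ a ha, if_pos rfl, sub_self]
  have hsplit : C.ext (C.act Γ z) y = C.ext (C.act Γ z) (C.act π y) +
      C.ext (C.act Γ z) (y - C.act π y) := by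
    rw [← ext_add_right, add_sub_cancel]
  rw [hsplit]
  refine Submodule.add_mem _ ?_ (h2 X Y i j' _ hx0 _ hy1)
  have hr : Realised H (Z.prod Y) (X.prod Y) (((j' : ℤ) - j') + (i - j))
      (fun c => C.extL Γ Y (C.extR π Z c))
      (fun c => H.extL (H.cl Γ) Y (H.extR (H.cl π) Z c)) :=
    (Realised.extR hπ0 Z).comp (Realised.extL hΓ Y)
  have hz1 := h1 m n hN _ _ _ _ z hzm y hy
  have h3 : C.extL Γ Y (C.extR π Z (C.ext z y)) = C.ext (C.act Γ z) (C.act π y) := by
    rw [C.extR_ext _ (fun c => chow_mul_comm _ _), C.extL_ext]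
  rw [← h3]
  refine FS_realised_shift (i := i + j') hr (by push_cast; ring)
    (Or.inr ⟨hK, fun c hc => ?_⟩) hz1
  exact kill_product (by push_cast; ring) had hπ' c hc

lemma extProp_step {N m n : ℕ} (hN : m + n = N) (h1 : ∀ m' n', m' + n' = N → ExtProp H m' n')
    (h2 : ExtProp H m (n + 1)) : ExtProp H (m + 1) n := by
  intro X Y i j' x hx y hy
  have key : FS H X i (m + 1) ≤ (FS H (X.prod Y) (i + j') (m + 1 + n)).comap (extLin y) := by
    refine FS_induction fun x hx => ?_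
    have hx0 : x ∈ FS H X i m := FS_anti X i m (Submodule.subset_span hx)
    rw [Submodule.mem_comap]
    rw [show m + 1 + n = m + n + 1 by ring]
    change C.ext x y ∈ _
    cases hx with
    | cons r Z _ j _ z Γ hz hΓ had =>
    rw [show (Z.dim : ℤ) + i - j = Z.dim + (i - j) by ring] at hΓ
    rw [adm_iff] at had
    have hzm : z ∈ FS H Z j m := Submodule.subset_span hz
    rcases had with had | ⟨hK, had⟩
    · exact ext_mem hΓ (h1 m n hN _ _ _ _ z hzm y hy)
        (Or.inl (fun c => extL_eq_zero had c))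
    · exact extProp_step_aux hN h1 h2 hK X Y Z i j' j y hy z Γ hx0 hzm hΓ had
  exact key hx

lemma extProp (m n : ℕ) : ExtProp H m n := by
  have main : ∀ N m n, m + n = N → ExtProp H m n := by
    intro N
    induction N with
    | zero =>
      intro m n h
      obtain rfl : m = 0 := by omega
      exact extProp_zero n
    | succ N ih =>
      intro m
      induction m with
      | zero => intro n _; exact extProp_zero n
      | succ m ihm =>
        intro n h
        exact extProp_step (N := N) (by omega) ih (ihm (n + 1) (by omega))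
  exact main _ m n rfl

end Pool.Agent.W492.BB
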