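import Pool.Agent.W492.BB.Calc

/-!
# Pairs of operators on Chow groups and cohomology induced by correspondences
-/

open CategoryTheory AlgebraicGeometry

universe u v w

namespace Pool.Agent.W492.BB

open Pool.Agent.H914 Pool.Agent.H914.VarClass Pool.Agent.H914.VarClass.Obj

variable {k : Type u} [Field k] {𝒱 : VarClass k} {C : TheoryData.{u, v, 0} 𝒱 ℚ} {K : Type w}
  [Field K] (H : WeilTheoryData.{u, v, w} C K) [hC : IsChow C] [hH : IsWeil H] {X Y Z W : 𝒱.Obj}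

lemma cl_act (Γ : C.A (X.prod Y)) (x : C.A X) :
    H.cl (C.act Γ x) = H.act (H.cl Γ) (H.cl x) := by
  rw [TheoryData.act_apply, TheoryData.act_apply, H.cl_push, map_mul, H.cl_pull]

lemma act_mem {e i : ℤ} {Γ : C.A (X.prod Y)} (hΓ : Γ ∈ C.gr (X.prod Y) (X.dim + e)) {x : C.A X}
    (hx : x ∈ C.gr X i) : C.act Γ x ∈ C.gr Y (i + e) := by
  rw [TheoryData.act_apply]
  have h := C.push_mem (snd X Y) (C.mul_mem hΓ (C.pull_mem (fst X Y) hx))
  have e1 : (X.dim : ℤ) + e + i + 1 * ((Y.dim : ℤ) - ((X.prod Y).dim : ℤ)) = i + e := by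
    rw [dim_prod]; push_cast; ring
  rwa [e1] at h

lemma actH_mem {e m : ℤ} {Γ : C.A (X.prod Y)} (hΓ : Γ ∈ C.gr (X.prod Y) (X.dim + e)) {a : H.A X}
    (ha : a ∈ H.gr X m) : H.act (H.cl Γ) a ∈ H.gr Y (m + 2 * e) := by
  rw [TheoryData.act_apply]
  have h := H.push_mem (snd X Y) (H.mul_mem (H.cl_mem hΓ) (H.pull_mem (fst X Y) ha))
  have e1 : 2 * ((X.dim : ℤ) + e) + m + 2 * ((Y.dim : ℤ) - ((X.prod Y).dim : ℤ)) = m + 2 * e := by
    rw [dim_prod]; push_cast; ring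
  rwa [e1] at h

/-- The pair of operators `(φ, ψ)` on Chow groups and on cohomology is induced by a correspondence
of degree `e`. -/
def Realised (X Y : 𝒱.Obj) (e : ℤ) (φ : C.A X → C.A Y) (ψ : H.A X → H.A Y) : Prop :=
  ∃ Γ ∈ C.gr (X.prod Y) (X.dim + e), (∀ x, C.act Γ x = φ x) ∧
    ∀ a, H.act (H.cl Γ) a = ψ a

namespace Realised

variable {H} {e e' : ℤ}

lemma of {Γ : C.A (X.prod Y)} (hΓ : Γ ∈ C.gr (X.prod Y) (X.dim + e)) :
    Realised H X Y e (C.act Γ) (H.act (H.cl Γ)) :=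
  ⟨Γ, hΓ, fun _ => rfl, fun _ => rfl⟩

lemma congr {φ φ' : C.A X → C.A Y} {ψ ψ' : H.A X → H.A Y} (h : Realised H X Y e φ ψ)
    (he : e = e') (h1 : ∀ x, φ x = φ' x) (h2 : ∀ a, ψ a = ψ' a) :
    Realised H X Y e' φ' ψ' := by
  obtain ⟨Γ, hΓ, h3, h4⟩ := h
  subst he
  exact ⟨Γ, hΓ, fun x => (h3 x).trans (h1 x), fun a => (h4 a).trans (h2 a)⟩

lemma comp {φ : C.A X → C.A Y} {ψ : H.A X → H.A Y} {φ' : C.A Y → C.A Z} {ψ' : H.A Y → H.A Z}
    (h : Realised H X Y e φ ψ) (h' : Realised H Y Z e' φ' ψ') :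
    Realised H X Z (e + e') (fun x => φ' (φ x)) (fun a => ψ' (ψ a)) := by
  obtain ⟨Γ, hΓ, h1, h2⟩ := h
  obtain ⟨Δ, hΔ, h3, h4⟩ := h'
  refine ⟨C.comp Γ Δ, ?_, ?_, ?_⟩
  · have h := C.push_mem (t13 X Y Z) (C.mul_mem (C.pull_mem (t23 X Y Z) hΔ)
      (C.pull_mem (fst (X.prod Y) Z) hΓ))
    have e1 : (Y.dim : ℤ) + e' + ((X.dim : ℤ) + e) +
        1 * (((X.prod Z).dim : ℤ) - (((X.prod Y).prod Z).dim : ℤ)) = X.dim + (e + e') := by
      rw [dim_prod, dim_prod, dim_prod]; push_cast; ring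
    rwa [e1] at h
  · intro x
    rw [C.act_comp, h1, h3]
  · intro a
    have : H.cl (C.comp Γ Δ) = H.comp (H.cl Γ) (H.cl Δ) := by
      rw [TheoryData.comp, TheoryData.comp, H.cl_push, map_mul, H.cl_pull, H.cl_pull]
    rw [this, H.act_comp, h2, h4]

lemma push (f : X ⟶ Y) : Realised H X Y (Y.dim - X.dim) (C.push f) (H.push f) := by
  refine ⟨C.graph f, ?_, fun x => C.act_graph f x, fun a => ?_⟩
  · have h := C.push_mem (Obj.lift (𝟙 X) f) (C.one_mem X)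
    have e1 : (0 : ℤ) + 1 * (((X.prod Y).dim : ℤ) - (X.dim : ℤ)) = X.dim + (Y.dim - X.dim) := by
      rw [dim_prod]; push_cast; ring
    rwa [e1] at h
  · have : H.cl (C.graph f) = H.graph f := by
      rw [TheoryData.graph, TheoryData.graph, H.cl_push, map_one]
    rw [this, H.act_graph]

lemma pull (f : X ⟶ Y) : Realised H Y X 0 (C.pull f) (H.pull f) := by
  refine ⟨C.cograph f, ?_, fun x => C.act_cograph f x, fun a => ?_⟩
  · have h := C.push_mem (Obj.lift f (𝟙 X)) (C.one_mem X)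
    have e1 : (0 : ℤ) + 1 * (((Y.prod X).dim : ℤ) - (X.dim : ℤ)) = Y.dim + 0 := by
      rw [dim_prod]; push_cast; ring
    rwa [e1] at h
  · have : H.cl (C.cograph f) = H.cograph f := by
      rw [TheoryData.cograph, TheoryData.cograph, H.cl_push, map_one]
    rw [this, H.act_cograph]

lemma mul {r : ℤ} {c : C.A X} (hc : c ∈ C.gr X r) :
    Realised H X X r (fun x => c * x) (fun a => H.cl c * a) := by
  refine ⟨C.mulCorr c, ?_, fun x => C.act_mulCorr c x, fun a => ?_⟩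
  · have h := C.push_mem (Obj.lift (𝟙 X) (𝟙 X)) hc
    have e1 : r + 1 * (((X.prod X).dim : ℤ) - (X.dim : ℤ)) = X.dim + r := by
      rw [dim_prod]; push_cast; ring
    rwa [e1] at h
  · have : H.cl (C.mulCorr c) = H.mulCorr (H.cl c) := by
      rw [TheoryData.mulCorr, TheoryData.mulCorr, H.cl_push]
    rw [this, H.act_mulCorr]

lemma id (X : 𝒱.Obj) : Realised H X X 0 (fun x => x) (fun a => a) :=
  (mul (H := H) (C.one_mem X)).congr rfl (fun x => one_mul x) (fun a => by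
    rw [map_one, one_mul])

lemma sub {φ φ' : C.A X → C.A Y} {ψ ψ' : H.A X → H.A Y} (h : Realised H X Y e φ ψ)
    (h' : Realised H X Y e φ' ψ') :
    Realised H X Y e (fun x => φ x - φ' x) (fun a => ψ a - ψ' a) := by
  obtain ⟨Γ, hΓ, h1, h2⟩ := h
  obtain ⟨Δ, hΔ, h3, h4⟩ := h'
  refine ⟨Γ - Δ, Submodule.sub_mem _ hΓ hΔ, fun x => ?_, fun a => ?_⟩
  · rw [C.act_sub, h1, h3]
  · rw [map_sub, H.act_sub, h2, h4]

lemma extL {Γ : C.A (X.prod Y)} (hΓ : Γ ∈ C.gr (X.prod Y) (X.dim + e)) (Z : 𝒱.Obj) :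
    Realised H (X.prod Z) (Y.prod Z) e (C.extL Γ Z) (H.extL (H.cl Γ) Z) := by
  refine (((Realised.pull (t13 X Y Z)).comp (Realised.mul (C.pull_mem _ hΓ))).comp
    (Realised.push (t23 X Y Z))).congr ?_ (fun x => rfl) (fun a => ?_)
  · rw [dim_prod, dim_prod, dim_prod]; push_cast; ring
  · rw [H.cl_pull]; rfl

lemma extR {Γ : C.A (X.prod Y)} (hΓ : Γ ∈ C.gr (X.prod Y) (X.dim + e)) (Z : 𝒱.Obj) :
    Realised H (Z.prod X) (Z.prod Y) e (C.extR Γ Z) (H.extR (H.cl Γ) Z) := by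
  refine (((Realised.pull (u12 Z X Y)).comp (Realised.mul (C.pull_mem _ hΓ))).comp
    (Realised.push (u13 Z X Y))).congr ?_ (fun x => rfl) (fun a => ?_)
  · rw [dim_prod, dim_prod, dim_prod]; push_cast; ring
  · rw [H.cl_pull]; rfl

end Realised

/-- A class on `X × Y` acting as zero on the cohomology of `X` vanishes. -/
lemma eq_zero_of_act (c : H.A (X.prod Y)) (hc : ∀ a, H.act c a = 0) : c = 0 := by
  apply H.nondeg
  intro b
  have h1 : ∀ b ∈ Submodule.span K {b : H.A (X.prod Y) | ∃ a a', b = H.pull (fst X Y) a *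
      H.pull (snd X Y) a'}, H.tr _ (c * b) = 0 := by
    intro b hb
    induction hb using Submodule.span_induction with
    | mem x hx =>
      obtain ⟨a, a', rfl⟩ := hx
      have h := hc a
      rw [TheoryData.act_apply] at h
      rw [← mul_assoc, ← H.tr_push (snd X Y), H.proj_right, h, zero_mul, map_zero]
    | zero => rw [mul_zero, map_zero]
    | add x y _ _ hx hy => rw [mul_add, map_add, hx, hy, add_zero]
    | smul r x _ hx => rw [mul_smul_comm, map_smul, hx, smul_zero]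
  apply h1
  have h2 : b ∈ ⨆ i, H.gr (X.prod Y) i := by
    rw [(H.isInternal (X.prod Y)).submodule_iSup_eq_top]; trivial
  refine (iSup_le fun i => ?_ : ⨆ i, H.gr (X.prod Y) i ≤ _) h2
  refine (H.kunneth X Y i).trans (Submodule.span_mono ?_)
  rintro _ ⟨l, a, b, _, _, rfl⟩
  exact ⟨a, b, rfl⟩

lemma act_eq_zero_of_kills (Γ : C.A (X.prod Y)) (h : ∀ l, Kills H Γ l) (a : H.A X) :
    H.act (H.cl Γ) a = 0 := by
  have h2 : a ∈ ⨆ i, H.gr X i := by
    rw [(H.isInternal X).submodule_iSup_eq_top]; trivial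
  have h3 : ⨆ i, H.gr X i ≤ LinearMap.ker (H.actL (H.cl Γ)) :=
    iSup_le fun i x hx => LinearMap.mem_ker.2 (h i x hx)
  exact LinearMap.mem_ker.1 (h3 h2)

end Pool.Agent.W492.BB
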